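import Pool.Agent.H88.Interp

set_option autoImplicit false

namespace Pool.Agent.Results.MP_c109b8_an.Counter

open Pool.Agent.H88.Interp

theorem result :
    ∃ (f : ℂ → ℂ) (z : ℕ → ℂ) (g : ℂ → ℂ), IsHinf f ∧ IsBlaschkeSeq z ∧
      Filter.Tendsto (fun n => f (z n)) Filter.atTop (nhds 0) ∧
      IsMinInterp f z g ∧
      (∀ g' : ℂ → ℂ, IsMinInterp f z g' → ∀ w ∈ Metric.ball (0 : ℂ) 1, g' w = g w) ∧
      ¬ IsBlaschkeMultiple g := by
  obtain ⟨z, hz, hr, ht⟩ := exists_seq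
  have key : ∀ h : ℂ → ℂ, IsHinf h → (∀ n, h (z n) = S (z n)) → supNorm h ≤ 1 →
      ∀ w ∈ Metric.ball (0 : ℂ) 1, h w = S w := by
    intro h hh he hn w hw
    refine unique_disc hh.1 (fun v hv => (le_supNorm hh hv).trans hn) (fun v hv h0 => ?_)
      (mem_ball_zero_iff.1 hw)
    obtain ⟨n, rfl⟩ : v ∈ Set.range z := by rw [hr]; exact Or.inl ⟨hv, h0⟩
    exact he n
  refine ⟨S, z, S, isHinf_S, hz, ht, ⟨isHinf_S, fun _ => rfl, fun h hh he => ?_⟩,
    fun g' hg' => key g' hg'.1 hg'.2.1 ((hg'.2.2 S isHinf_S fun _ => rfl).trans supNorm_S),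
    not_blaschke_S⟩
  by_contra hc
  rw [not_le] at hc
  have h1 := key h hh he (hc.le.trans supNorm_S)
  have h2 : supNorm h = supNorm S := iSup_congr fun w => by rw [h1 w w.2]
  exact hc.ne h2

end Pool.Agent.Results.MP_c109b8_an.Counter
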